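import Pool.Agent.V5helper90.KD.StmX

/-!
# Project KH, job GNR: every equivariant family is generated by `F`
-/


set_option linter.unusedSectionVars false

namespace Pool.Agent.V5helper37.KD

open Module Matrix ComplexConjugate Pool.Agent.N996.BP
open Pool.Agent.V5helper10.KSC Pool.Agent.V5helper90.KD

variable {ι κ : Type} [Fintype ι] [DecidableEq ι] [Fintype κ] [DecidableEq κ]

lemma cQ_add' (A B : Matrix κ κ ℚ) : cQ (A + B) = cQ A + cQ B := by
  ext i j
  simp [cQ]

lemma cQ_zero' : cQ (0 : Matrix κ κ ℚ) = 0 := by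
  ext i j
  simp [cQ]

lemma cQ_smul' (c : ℚ) (A : Matrix κ κ ℚ) : cQ (c • A) = (c : ℂ) • cQ A := by
  ext i j
  simp [cQ]

lemma cQ_inj' (A : Matrix κ κ ℚ) (h : cQ A = 0) : A = 0 := by
  ext i j
  have := congrFun (congrFun h i) j
  simpa [cQ] using this

lemma cQ_sum' {α : Type} (s : Finset α) (A : α → Matrix κ κ ℚ) :
    cQ (∑ i ∈ s, A i) = ∑ i ∈ s, cQ (A i) := by
  classical
  induction s using Finset.induction_on with
  | empty => simp [cQ_zero']
  | insert a s ha ih => rw [Finset.sum_insert ha, Finset.sum_insert ha, cQ_add', ih]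

lemma cQ_trace (A : Matrix κ κ ℚ) : (cQ A).trace = (A.trace : ℂ) := by
  simp [Matrix.trace, cQ]

lemma ro_mul (p : Matrix κ κ ℂ) (hp : p * p = p) (t : ℂ) (ht : t ≠ 0) :
    ro p t * ro p t⁻¹ = 1 := by
  have h1 : p * (1 - p) = 0 := by rw [Matrix.mul_sub, Matrix.mul_one, hp, sub_self]
  have h2 : (1 - p) * p = 0 := by rw [Matrix.sub_mul, Matrix.one_mul, hp, sub_self]
  have h3 : (1 - p) * (1 - p) = 1 - p := by rw [Matrix.sub_mul, Matrix.one_mul, h1, sub_zero]
  unfold ro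
  rw [inv_inv, Matrix.add_mul, Matrix.mul_add, Matrix.mul_add, Matrix.smul_mul, Matrix.smul_mul,
    Matrix.smul_mul, Matrix.smul_mul, Matrix.mul_smul, Matrix.mul_smul, Matrix.mul_smul,
    Matrix.mul_smul, hp, h1, h2, h3]
  simp only [smul_smul, smul_zero, mul_inv_cancel₀ ht, inv_mul_cancel₀ ht, add_zero, zero_add,
    one_smul, add_sub_cancel]

lemma ro_comm {p A : Matrix κ κ ℂ} (h : p * A = A * p) (t : ℂ) : ro p t * A = A * ro p t := by
  unfold ro
  rw [Matrix.add_mul, Matrix.mul_add, Matrix.smul_mul, Matrix.smul_mul, Matrix.mul_smul,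
    Matrix.mul_smul, Matrix.sub_mul, Matrix.mul_sub, Matrix.one_mul, Matrix.mul_one, h]

lemma comm_of_ro {p A : Matrix κ κ ℂ} (h : ro p 2 * A = A * ro p 2) : p * A = A * p := by
  unfold ro at h
  rw [Matrix.add_mul, Matrix.mul_add, Matrix.smul_mul, Matrix.smul_mul, Matrix.mul_smul,
    Matrix.mul_smul, Matrix.sub_mul, Matrix.mul_sub, Matrix.one_mul, Matrix.mul_one] at h
  have h1 : (2 - (2 : ℂ)⁻¹) • (p * A) = (2 - (2 : ℂ)⁻¹) • (A * p) := by
    rw [sub_smul, sub_smul]
    rw [smul_sub, smul_sub] at h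
    have h2 : (2 : ℂ) • (p * A) - (2 : ℂ)⁻¹ • (p * A) =
        ((2 : ℂ) • (p * A) + ((2 : ℂ)⁻¹ • A - (2 : ℂ)⁻¹ • (p * A))) - (2 : ℂ)⁻¹ • A := by abel
    rw [h2, h]
    abel
  have h3 : (2 - (2 : ℂ)⁻¹) ≠ 0 := by norm_num
  exact smul_right_injective _ h3 h1

/-- bilinear expansion -/
lemma bil (l : Matrix ι ι ℂ) (q : ι → ℂ) (hl : ∀ j k, ∑ i, q i * (l j i * l k i) =
    if j = k then q j else 0) (G F : ι → Matrix κ κ ℂ) (φ : Matrix κ κ ℂ) :
    ∑ i, q i • ((∑ j, l j i • G j) * φ * (∑ k, l k i • F k)) = ∑ j, q j • (G j * φ * F j) := by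
  have h1 : ∀ i, q i • ((∑ j, l j i • G j) * φ * (∑ k, l k i • F k)) =
      ∑ j, ∑ k, (q i * (l j i * l k i)) • (G j * φ * F k) := by
    intro i
    rw [Finset.sum_mul, Finset.sum_mul, Finset.smul_sum]
    apply Finset.sum_congr rfl
    intro j _
    rw [Finset.mul_sum, Finset.smul_sum]
    apply Finset.sum_congr rfl
    intro k _
    rw [Matrix.smul_mul, Matrix.smul_mul, Matrix.mul_smul, smul_smul, smul_smul, mul_assoc]
  rw [Finset.sum_congr rfl fun i _ => h1 i, Finset.sum_comm]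
  apply Finset.sum_congr rfl
  intro j _
  rw [Finset.sum_comm]
  have h2 : ∀ k, ∑ i, (q i * (l j i * l k i)) • (G j * φ * F k) =
      (if j = k then q j else 0) • (G j * φ * F k) := by
    intro k
    rw [← Finset.sum_smul, hl]
  rw [Finset.sum_congr rfl fun k _ => h2 k, Finset.sum_eq_single j]
  · rw [if_pos rfl]
  · intro k _ hk
    rw [if_neg (Ne.symm hk), zero_smul]
  · intro h
    exact absurd (Finset.mem_univ _) h

/-- the inverse form is invariant -/
lemma inv_form (H : HData ι) (hd : ∀ i j, i ≠ j → H.Qr i j = 0) (t : ℂ) (ht : t ≠ 0) (j k : ι) :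
    ∑ i, (((H.Qr i i)⁻¹ : ℚ) : ℂ) * (H.l t j i * H.l t k i) =
      if j = k then (((H.Qr j j)⁻¹ : ℚ) : ℂ) else 0 := by
  have hQQ : ∀ i j, H.Qr i i * H.Qir i j = if i = j then 1 else 0 := by
    intro i j
    have h := congrFun (congrFun H.Qr_Qir i) j
    rw [Matrix.mul_apply, Matrix.one_apply, Finset.sum_eq_single i] at h
    · exact h
    · intro b _ hb
      rw [hd i b (Ne.symm hb), zero_mul]
    · intro h'
      exact absurd (Finset.mem_univ _) h'
  have hne : ∀ i, H.Qr i i ≠ 0 := by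
    intro i h0
    have := hQQ i i
    rw [h0, zero_mul, if_pos rfl] at this
    exact zero_ne_one this
  have hQi : ∀ i j, H.Qir i j = if i = j then (H.Qr i i)⁻¹ else 0 := by
    intro i j
    have h := hQQ i j
    by_cases hij : i = j
    · rw [if_pos hij] at h ⊢
      exact eq_inv_of_mul_eq_one_right h
    · rw [if_neg hij] at h ⊢
      exact (mul_eq_zero.1 h).resolve_left (hne i)
  -- `l Q⁻¹ lᵀ = Q⁻¹`
  have hQQ' : cQ H.Qr * cQ H.Qir = 1 := by rw [← cQ_mul, H.Qr_Qir, cQ_one]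
  have hQQ'' : cQ H.Qir * cQ H.Qr = 1 := mul_eq_one_comm.1 hQQ'
  have h1 : H.l t * cQ H.Qir * (H.l t)ᵀ = cQ H.Qir := by
    have h2 : (H.l t)ᵀ * cQ H.Qr = cQ H.Qr * H.l t⁻¹ := H.l_tr ht
    have h3 : (H.l t)ᵀ = cQ H.Qr * H.l t⁻¹ * cQ H.Qir := by
      rw [← h2, Matrix.mul_assoc, hQQ', Matrix.mul_one]
    rw [h3]
    have h4 : H.l t * cQ H.Qir * (cQ H.Qr * H.l t⁻¹ * cQ H.Qir) =
        H.l t * (cQ H.Qir * cQ H.Qr) * H.l t⁻¹ * cQ H.Qir := by
      simp only [Matrix.mul_assoc]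
    rw [h4, hQQ'', Matrix.mul_one, H.l_inv ht, Matrix.one_mul]
  have h5 := congrFun (congrFun h1 j) k
  rw [Matrix.mul_apply] at h5
  have h6 : ∀ i, (H.l t * cQ H.Qir) j i = H.l t j i * (((H.Qr i i)⁻¹ : ℚ) : ℂ) := by
    intro i
    rw [Matrix.mul_apply, Finset.sum_eq_single i]
    · rw [cQ, Matrix.map_apply, hQi, if_pos rfl]
    · intro b _ hb
      rw [cQ, Matrix.map_apply, hQi, if_neg hb, Rat.cast_zero, mul_zero]
    · intro h'
      exact absurd (Finset.mem_univ _) h'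
  simp only [h6, Matrix.transpose_apply] at h5
  have h7 : cQ H.Qir j k = if j = k then (((H.Qr j j)⁻¹ : ℚ) : ℂ) else 0 := by
    rw [cQ, Matrix.map_apply, hQi]
    split_ifs <;> simp
  rw [h7] at h5
  rw [← h5]
  apply Finset.sum_congr rfl
  intro i _
  ring

section fam

variable {H : HData ι} {tt : Finset ι} {p : Matrix κ κ ℂ}

lemma lin_single (G : ι → Matrix κ κ ℚ) (i : ι) : lin G (Pi.single i 1) = cQ (G i) := by
  unfold Pool.Agent.V5helper90.KD.lin
  rw [Finset.sum_eq_single i]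
  · simp
  · intro b _ hb
    simp [hb]
  · intro h
    exact absurd (Finset.mem_univ _) h

lemma lin_col (G : ι → Matrix κ κ ℚ) (l : Matrix ι ι ℂ) (i : ι) :
    lin G (l *ᵥ (Pi.single i 1 : ι → ℂ)) = ∑ j, l j i • cQ (G j) := by
  unfold Pool.Agent.V5helper90.KD.lin
  apply Finset.sum_congr rfl
  intro j _
  rw [Matrix.mulVec_single_one]
  rfl

/-- the equivariance on basis vectors -/
lemma conj_fam {w : ι → ℂ} (hK : K3D H tt w) {G : ι → Matrix κ κ ℚ} (hG : IsFam H tt p G) (t : ℂ)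
    (ht : t ≠ 0) (i : ι) : ro p t * cQ (G i) * ro p t⁻¹ = ∑ j, H.l t j i • cQ (G j) := by
  rw [← lin_col]
  by_cases hi : i ∈ tt
  · rw [hG.eqv t ht _ (by
      intro j hj
      have : j ≠ i := fun h => hj (h ▸ hi)
      simp [this]), lin_single]
  · rw [hK.off i hi t ht, lin_single, hG.off i hi, cQ_zero', Matrix.mul_zero, Matrix.zero_mul]

/-- the contraction commutes with `p` -/
lemma theta_comm {w : ι → ℂ} (hK : K3D H tt w) (hp : p * p = p) {G F : ι → Matrix κ κ ℚ}
    (hG : IsFam H tt p G) (hF : IsFam H tt p F) {φ : Matrix κ κ ℚ} (hφ : p * cQ φ = cQ φ * p) :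
    p * cQ (∑ i ∈ tt, (H.Qr i i)⁻¹ • (G i * φ * F i)) =
      cQ (∑ i ∈ tt, (H.Qr i i)⁻¹ • (G i * φ * F i)) * p := by
  have h0 : cQ (∑ i ∈ tt, (H.Qr i i)⁻¹ • (G i * φ * F i)) =
      ∑ i, (((H.Qr i i)⁻¹ : ℚ) : ℂ) • (cQ (G i) * cQ φ * cQ (F i)) := by
    have h1 : ∑ i ∈ tt, (H.Qr i i)⁻¹ • (G i * φ * F i) = ∑ i, (H.Qr i i)⁻¹ • (G i * φ * F i) := by
      apply Finset.sum_subset (Finset.subset_univ _)
      intro i _ hi
      rw [hG.off i hi, Matrix.zero_mul, Matrix.zero_mul, smul_zero]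
    rw [h1, cQ_sum']
    apply Finset.sum_congr rfl
    intro i _
    rw [cQ_smul', cQ_mul, cQ_mul]
  have h2 : (2 : ℂ) ≠ 0 := two_ne_zero
  have hr1 := ro_mul p hp 2 h2
  have hr2 : ro p (2 : ℂ)⁻¹ * ro p 2 = 1 := mul_eq_one_comm.1 hr1
  have hφ' : ro p 2⁻¹ * cQ φ * ro p 2 = cQ φ := by
    rw [ro_comm hφ, Matrix.mul_assoc, hr2, Matrix.mul_one]
  apply comm_of_ro
  rw [h0]
  set θ : Matrix κ κ ℂ := ∑ i, (((H.Qr i i)⁻¹ : ℚ) : ℂ) • (cQ (G i) * cQ φ * cQ (F i)) with hθ
  have h3 : ro p 2 * θ * ro p 2⁻¹ = θ := by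
    have h4 := bil (H.l 2) (fun i => (((H.Qr i i)⁻¹ : ℚ) : ℂ)) (inv_form H hK.diag 2 h2)
      (fun i => cQ (G i)) (fun i => cQ (F i)) (cQ φ)
    rw [← hθ] at h4
    refine Eq.trans ?_ h4
    rw [hθ, Finset.mul_sum, Finset.sum_mul]
    apply Finset.sum_congr rfl
    intro i _
    rw [← conj_fam hK hG 2 h2 i, ← conj_fam hK hF 2 h2 i, Matrix.mul_smul, Matrix.smul_mul]
    congr 1
    have h5 : ro p 2 * cQ (G i) * ro p 2⁻¹ * cQ φ * (ro p 2 * cQ (F i) * ro p 2⁻¹) =
        ro p 2 * cQ (G i) * (ro p 2⁻¹ * cQ φ * ro p 2) * cQ (F i) * ro p 2⁻¹ := by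
      simp only [Matrix.mul_assoc]
    rw [h5, hφ']
    simp only [Matrix.mul_assoc]
  calc ro p 2 * θ = ro p 2 * θ * (ro p 2⁻¹ * ro p 2) := by rw [hr2, Matrix.mul_one]
    _ = (ro p 2 * θ * ro p 2⁻¹) * ro p 2 := by simp only [Matrix.mul_assoc]
    _ = θ * ro p 2 := by rw [h3]

/-- the space of the equivariant families -/
def GS (H : HData ι) (tt : Finset ι) (p : Matrix κ κ ℂ) : Submodule ℚ (ι → Matrix κ κ ℚ) where
  carrier := {G | IsFam H tt p G}
  add_mem' := by
    intro G G' hG hG'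
    have hl : ∀ v, lin (G + G') v = lin G v + lin G' v := by
      intro v
      unfold Pool.Agent.V5helper90.KD.lin
      rw [← Finset.sum_add_distrib]
      apply Finset.sum_congr rfl
      intro i _
      rw [Pi.add_apply, cQ_add', smul_add]
    refine ⟨?_, ?_⟩
    · intro i hi
      rw [Pi.add_apply, hG.off i hi, hG'.off i hi, add_zero]
    · intro t ht v hv
      rw [hl, hl, hG.eqv t ht v hv, hG'.eqv t ht v hv, Matrix.mul_add, Matrix.add_mul]
  zero_mem' := by
    have hl : ∀ v, lin (0 : ι → Matrix κ κ ℚ) v = 0 := by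
      intro v
      unfold Pool.Agent.V5helper90.KD.lin
      apply Finset.sum_eq_zero
      intro i _
      rw [Pi.zero_apply, cQ_zero', smul_zero]
    refine ⟨fun _ _ => rfl, ?_⟩
    intro t ht v hv
    rw [hl, hl, Matrix.mul_zero, Matrix.zero_mul]
  smul_mem' := by
    intro c G hG
    have hl : ∀ v, lin (c • G) v = (c : ℂ) • lin G v := by
      intro v
      unfold Pool.Agent.V5helper90.KD.lin
      rw [Finset.smul_sum]
      apply Finset.sum_congr rfl
      intro i _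
      rw [Pi.smul_apply, cQ_smul', smul_comm]
    refine ⟨?_, ?_⟩
    · intro i hi
      rw [Pi.smul_apply, hG.off i hi, smul_zero]
    · intro t ht v hv
      rw [hl, hl, hG.eqv t ht v hv, Matrix.mul_smul, Matrix.smul_mul]

/-- the generators -/
def gen (p : Matrix κ κ ℂ) (F : ι → Matrix κ κ ℚ) : Set (ι → Matrix κ κ ℚ) :=
  {W | ∃ A B : Matrix κ κ ℚ, p * cQ A = cQ A * p ∧ p * cQ B = cQ B * p ∧ W = fun i => A * F i * B}

lemma gen_le {F : ι → Matrix κ κ ℚ} (hF : IsFam H tt p F) : gen p F ⊆ GS H tt p := by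
  rintro W ⟨A, B, hA, hB, rfl⟩
  show IsFam H tt p (fun i => A * F i * B)
  have hl : ∀ v, lin (fun i => A * F i * B) v = cQ A * lin F v * cQ B := by
    intro v
    unfold Pool.Agent.V5helper90.KD.lin
    rw [Finset.mul_sum, Finset.sum_mul]
    apply Finset.sum_congr rfl
    intro i _
    rw [cQ_mul, cQ_mul, Matrix.mul_smul, Matrix.smul_mul]
  refine ⟨?_, ?_⟩
  · intro i hi
    show A * F i * B = 0
    rw [hF.off i hi, Matrix.mul_zero, Matrix.zero_mul]
  · intro t ht v hv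
    rw [hl, hl, hF.eqv t ht v hv]
    calc cQ A * (ro p t * lin F v * ro p t⁻¹) * cQ B =
        (cQ A * ro p t) * lin F v * (ro p t⁻¹ * cQ B) := by simp only [Matrix.mul_assoc]
      _ = (ro p t * cQ A) * lin F v * (cQ B * ro p t⁻¹) := by
          rw [ro_comm hA, ro_comm hB]
      _ = ro p t * (cQ A * lin F v * cQ B) * ro p t⁻¹ := by simp only [Matrix.mul_assoc]

/-- the pairing -/
noncomputable def pai (tt : Finset ι) (q : ι → ℚ) :
    (ι → Matrix κ κ ℚ) →ₗ[ℚ] (ι → Matrix κ κ ℚ) →ₗ[ℚ] ℚ :=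
  LinearMap.mk₂ ℚ (fun G W => ∑ i ∈ tt, q i * (G i * W i).trace)
    (by
      intro G G' W
      rw [← Finset.sum_add_distrib]
      apply Finset.sum_congr rfl
      intro i _
      rw [Pi.add_apply, Matrix.add_mul, Matrix.trace_add, mul_add])
    (by
      intro c G W
      rw [smul_eq_mul, Finset.mul_sum]
      apply Finset.sum_congr rfl
      intro i _
      rw [Pi.smul_apply, Matrix.smul_mul, Matrix.trace_smul, smul_eq_mul]
      ring)
    (by
      intro G W W'
      rw [← Finset.sum_add_distrib]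
      apply Finset.sum_congr rfl
      intro i _
      rw [Pi.add_apply, Matrix.mul_add, Matrix.trace_add, mul_add])
    (by
      intro c G W
      rw [smul_eq_mul, Finset.mul_sum]
      apply Finset.sum_congr rfl
      intro i _
      rw [Pi.smul_apply, Matrix.mul_smul, Matrix.trace_smul, smul_eq_mul]
      ring)

lemma pai_apply (tt : Finset ι) (q : ι → ℚ) (G W : ι → Matrix κ κ ℚ) :
    pai tt q G W = ∑ i ∈ tt, q i * (G i * W i).trace := rfl

end fam

/-- **GNR** -/
theorem t_GNR (hKEY : S_KEY) (hSEP : S_SEP) : S_GNR := by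
  intro ι _ _ H tt w hQ κ _ _ E F p hop hF0 G hG
  have hp := hop.one.idem
  have hF : IsFam H tt p F := ⟨hop.off, hop.eqv⟩
  set 𝒲 : Submodule ℚ (ι → Matrix κ κ ℚ) := Submodule.span ℚ (gen p F) with h𝒲
  have hle : 𝒲 ≤ GS H tt p := Submodule.span_le.2 (gen_le hF)
  -- the pairing is injective on the first factor
  have hinj : Function.Injective ((pai (κ := κ) tt fun i => (H.Qr i i)⁻¹).domRestrict₁₂
      (GS H tt p) 𝒲) := by
    rw [injective_iff_map_eq_zero]
    rintro ⟨G, hG⟩ h0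
    by_contra hne
    have hG' : IsFam H tt p G := hG
    have hex : ∃ i, G i ≠ 0 := by
      by_contra hall
      push Not at hall
      apply hne
      ext1
      funext i
      exact hall i
    obtain ⟨φ, hφ, hθ⟩ := hKEY ι H tt w hQ κ E F p hop hF0 G hG' hex
    set θ : Matrix κ κ ℚ := ∑ i ∈ tt, (H.Qr i i)⁻¹ • (G i * φ * F i) with hθd
    apply hθ
    apply cQ_inj'
    have hcomm : p * cQ θ = cQ θ * p := theta_comm hQ.hK hp hG' hF hφ
    apply hSEP κ E p hop.one
    · intro σ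
      rw [cQ_map]
      exact hcomm
    · intro A hA
      rw [← cQ_mul, cQ_trace]
      have h1 : (A * θ).trace = 0 := by
        have hW : (fun i => φ * F i * A) ∈ 𝒲 :=
          Submodule.subset_span ⟨φ, A, hφ, hA, rfl⟩
        have h2 := LinearMap.congr_fun h0 ⟨_, hW⟩
        have h3 : pai tt (fun i => (H.Qr i i)⁻¹) G (fun i => φ * F i * A) = 0 := h2
        rw [pai_apply] at h3
        rw [← h3, hθd, Finset.mul_sum, Matrix.trace_sum]
        apply Finset.sum_congr rfl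
        intro i _
        rw [Matrix.mul_smul, Matrix.trace_smul, smul_eq_mul, Matrix.trace_mul_comm]
        simp only [Matrix.mul_assoc]
      rw [h1, Rat.cast_zero]
  have hfin : finrank ℚ (GS H tt p) ≤ finrank ℚ 𝒲 := by
    have h1 := LinearMap.finrank_le_finrank_of_injective hinj
    have h2 : finrank ℚ (𝒲 →ₗ[ℚ] ℚ) = finrank ℚ 𝒲 := Subspace.dual_finrank_eq
    rw [h2] at h1
    exact h1
  have heq : 𝒲 = GS H tt p := Submodule.eq_of_le_of_finrank_le hle hfin
  have hmem : G ∈ 𝒲 := by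
    rw [heq]
    exact hG
  clear hinj hfin heq hle hG
  induction hmem using Submodule.span_induction with
  | mem W hW =>
    obtain ⟨A, B, hA, hB, rfl⟩ := hW
    exact ⟨1, fun _ => A, fun _ => B, fun _ => hA, fun _ => hB, fun i => by simp⟩
  | zero => exact ⟨0, fun s => s.elim0, fun s => s.elim0, fun s => s.elim0, fun s => s.elim0,
      fun i => by simp⟩
  | add G G' _ _ ih ih' =>
    obtain ⟨n, A, B, hA, hB, h⟩ := ih
    obtain ⟨n', A', B', hA', hB', h'⟩ := ih'
    refine ⟨n + n', Fin.append A A', Fin.append B B', ?_, ?_, ?_⟩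
    · intro s
      refine Fin.addCases (fun s => ?_) (fun s => ?_) s
      · rw [Fin.append_left]
        exact hA s
      · rw [Fin.append_right]
        exact hA' s
    · intro s
      refine Fin.addCases (fun s => ?_) (fun s => ?_) s
      · rw [Fin.append_left]
        exact hB s
      · rw [Fin.append_right]
        exact hB' s
    · intro i
      rw [Pi.add_apply, h i, h' i, Fin.sum_univ_add]
      simp only [Fin.append_left, Fin.append_right]
  | smul c G _ ih =>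
    obtain ⟨n, A, B, hA, hB, h⟩ := ih
    refine ⟨n, fun s => c • A s, B, ?_, hB, ?_⟩
    · intro s
      rw [cQ_smul', Matrix.mul_smul, Matrix.smul_mul, hA s]
    · intro i
      rw [Pi.smul_apply, h i, Finset.smul_sum]
      apply Finset.sum_congr rfl
      intro s _
      rw [Matrix.smul_mul, Matrix.smul_mul]

end Pool.Agent.V5helper37.KD
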